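import Mathlib

/-!
# A compact hereditarily metalindelöf space which is not Radon, in ZFC

For every countable ordinal `b` let `e · b` be an injection of the predecessors of `b` into `ℕ`.
The space `K e` consists of the sets `x ⊆ ω₁` such that for all `a < b` in `x` at most `e a b`
elements of `x` lie strictly between `a` and `b`, with the topology of pointwise convergence.
-/

namespace Pool.Agent.Results.MP_8c874d_gt.NotRadon

open Set Cardinal MeasureTheory Topology
open scoped ENNReal

universe u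

/-! ### The notions of the problem -/

/-- A space is metalindelöf: every open cover has a point-countable open refinement. -/
def Metalindelof (X : Type u) [TopologicalSpace X] : Prop :=
  ∀ 𝒰 : Set (Set X), (∀ U ∈ 𝒰, IsOpen U) → ⋃₀ 𝒰 = Set.univ →
    ∃ 𝒱 : Set (Set X), (∀ V ∈ 𝒱, IsOpen V) ∧ ⋃₀ 𝒱 = Set.univ ∧ (∀ V ∈ 𝒱, ∃ U ∈ 𝒰, V ⊆ U) ∧
      ∀ x, {V | V ∈ 𝒱 ∧ x ∈ V}.Countable

/-- Every subspace is metalindelöf. -/
def HereditarilyMetalindelof (X : Type u) [TopologicalSpace X] : Prop :=
  ∀ S : Set X, Metalindelof S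

/-- `κ` is a measurable cardinal: it is uncountable and carries a nonprincipal `κ`-complete
ultrafilter. -/
def IsMeasurableCardinal (κ : Cardinal.{u}) : Prop :=
  ℵ₀ < κ ∧ ∃ U : Ultrafilter κ.out, (∀ x, {x} ∉ U) ∧
    ∀ 𝒮 : Set (Set κ.out), #𝒮 < κ → (∀ s ∈ 𝒮, s ∈ U) → ⋂₀ 𝒮 ∈ U

/-- Condition (H). -/
def PropertyH (X : Type u) [TopologicalSpace X] : Prop :=
  HereditarilyMetalindelof X ∧ ∀ D : Set X, DiscreteTopology D → ¬ IsMeasurableCardinal #D

/-- Radon spaces: every finite Borel measure is inner regular with respect to the compact sets. -/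
def IsRadonSpace (X : Type u) [TopologicalSpace X] : Prop :=
  ∀ μ : @Measure X (borel X), μ Set.univ < ∞ → ∀ B : Set X, MeasurableSet[borel X] B →
    μ B = ⨆ L : {L : Set X // IsCompact L ∧ L ⊆ B}, μ L

/-! ### Countable ordinals -/

/-- The well-ordered set of the countable ordinals (order type `ω₁`). -/
abbrev Om : Type := (ℵ₁ : Cardinal.{0}).ord.ToType

theorem countable_Iio (a : Om) : (Iio a).Countable := by
  have h : #(Set.Iio a) < ℵ₁ := mk_Iio_toType_ord_lt a
  have h1 : ℵ₁ ≤ Order.succ (ℵ₀ : Cardinal.{0}) := succ_aleph0.ge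
  exact mk_le_aleph0_iff.1 (Order.lt_succ_iff.1 (h.trans_le h1))

theorem exists_bound (S : Set Om) (hS : S.Countable) : ∃ a : Om, ∀ b ∈ S, b < a := by
  by_contra hc
  push Not at hc
  have h1 : (Set.univ : Set Om) ⊆ ⋃ b ∈ S, Set.Iic b := by
    intro a _
    obtain ⟨b, hb, hab⟩ := hc a
    exact Set.mem_iUnion₂.2 ⟨b, hb, hab⟩
  have h2 : (⋃ b ∈ S, Set.Iic b).Countable := by
    refine hS.biUnion fun b _ => ?_
    have : Set.Iic b = insert b (Set.Iio b) := by
      ext x
      simp [le_iff_eq_or_lt]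
    rw [this]
    exact (countable_Iio b).insert _
  have h3 := h2.mono h1
  have h4 : #Om ≤ ℵ₀ := by
    rw [← mk_univ]
    exact mk_le_aleph0_iff.2 (Set.countable_coe_iff.2 h3)
  rw [mk_ord_toType] at h4
  exact absurd h4 (not_le.2 aleph0_lt_aleph_one)

instance : Nonempty Om := ⟨(exists_bound ∅ countable_empty).choose⟩

theorem exists_emb : ∃ e : Om → Om → ℕ, ∀ b n, {a | a < b ∧ e a b ≤ n}.Finite := by
  classical
  have h : ∀ b : Om, ∃ f : Iio b → ℕ, Function.Injective f := fun b =>
    (countable_Iio b).exists_injective_nat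
  choose f hf using h
  refine ⟨fun a b => if hab : a < b then f b ⟨a, hab⟩ else 0, fun b n => ?_⟩
  refine Set.Finite.of_injOn (f := fun a => if hab : a < b then f b ⟨a, hab⟩ else 0)
    (t := Set.Iic n) (fun a ha => ?_) ?_ (Set.finite_Iic n)
  · exact ha.2
  · intro a ha a' ha' haa
    have h1 : a < b := ha.1
    have h2 : a' < b := ha'.1
    simp only [h1, h2, dite_true] at haa
    exact congrArg Subtype.val (hf b haa)

/-! ### The space -/

/-- For all `a < b` in `x`, at most `e a b` elements of `x` lie strictly between `a` and `b`. -/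
def Good (e : Om → Om → ℕ) (x : Set Om) : Prop :=
  ∀ a ∈ x, ∀ b ∈ x, a < b → ∀ t : Finset Om, (∀ c ∈ t, c ∈ x ∧ a < c ∧ c < b) → t.card ≤ e a b

/-- The space of the good sets, a subspace of the Cantor cube `{0,1}^{ω₁}`. -/
abbrev K (e : Om → Om → ℕ) : Type := {x : Om → Bool // Good e {a | x a = true}}

variable {e : Om → Om → ℕ}

/-- the set coded by a point -/
def supp (x : K e) : Set Om := {a | x.1 a = true}

theorem Good.mono {x y : Set Om} (h : Good e y) (hxy : x ⊆ y) : Good e x :=
  fun a ha b hb hab t ht => h a (hxy ha) b (hxy hb) hab t fun c hc =>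
    ⟨hxy (ht c hc).1, (ht c hc).2⟩

theorem good_supp (x : K e) : Good e (supp x) := x.2

/-- the point of `K e` coding a good set -/
noncomputable def mk (x : Set Om) (hx : Good e x) : K e :=
  haveI := Classical.decPred (· ∈ x)
  ⟨fun a => decide (a ∈ x), by simpa using hx⟩

theorem supp_mk (x : Set Om) (hx : Good e x) : supp (mk x hx) = x := by
  ext a
  simp [supp, mk]

theorem Good.finite_lt {x : Set Om} (h : Good e x) {b : Om} (hb : b ∈ x) :
    {a | a ∈ x ∧ a < b}.Finite := by
  rcases Set.eq_empty_or_nonempty {a | a ∈ x ∧ a < b} with h0 | hne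
  · rw [h0]
    exact Set.finite_empty
  · obtain ⟨a, ha, hmin⟩ := WellFounded.has_min (wellFounded_lt (α := Om)) _ hne
    have hfin : {c | c ∈ x ∧ a < c ∧ c < b}.Finite := by
      by_contra hinf
      obtain ⟨t, ht, htc⟩ := (show Set.Infinite _ from hinf).exists_subset_card_eq (e a b + 1)
      have := h a ha.1 b hb ha.2 t fun c hc => ht hc
      omega
    refine (hfin.insert a).subset fun c hc => ?_
    rcases lt_trichotomy a c with h1 | h1 | h1
    · exact Or.inr ⟨hc.1, h1, hc.2⟩
    · exact Or.inl h1.symm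
    · exact absurd h1 (hmin c hc)

theorem Good.countable {x : Set Om} (h : Good e x) : x.Countable := by
  have hinj : Set.InjOn (fun b => {a | a ∈ x ∧ a < b}.ncard) x := by
    have key : ∀ b ∈ x, ∀ b' ∈ x, b < b' →
        {a | a ∈ x ∧ a < b}.ncard < {a | a ∈ x ∧ a < b'}.ncard := by
      intro b hb b' hb' hbb
      refine Set.ncard_lt_ncard ?_ (h.finite_lt hb')
      refine ⟨fun a ha => ⟨ha.1, ha.2.trans hbb⟩, fun hsub => ?_⟩
      exact lt_irrefl b (hsub (show b ∈ {a | a ∈ x ∧ a < b'} from ⟨hb, hbb⟩)).2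
    intro b hb b' hb' hbb
    rcases lt_trichotomy b b' with h1 | h1 | h1
    · exact absurd hbb (key b hb b' hb' h1).ne
    · exact h1
    · exact absurd hbb (key b' hb' b hb h1).ne'
  exact Set.MapsTo.countable_of_injOn (t := (Set.univ : Set ℕ)) (fun _ _ => Set.mem_univ _) hinj
    Set.countable_univ

theorem countable_supp (x : K e) : (supp x).Countable := (good_supp x).countable

theorem isClosed_good (e : Om → Om → ℕ) : IsClosed {x : Om → Bool | Good e {a | x a = true}} := by
  have hopen : ∀ a : Om, IsOpen {x : Om → Bool | x a = true} := fun a =>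
    (isOpen_discrete ({true} : Set Bool)).preimage (f := fun x : Om → Bool => x a)
      (continuous_apply a)
  have : {x : Om → Bool | Good e {a | x a = true}} = {x : Om → Bool | ∀ a b : Om, ∀ t : Finset Om,
      (x a = true ∧ x b = true ∧ ∀ c ∈ t, x c = true) →
        (a < b → (∀ c ∈ t, a < c ∧ c < b) → t.card ≤ e a b)} := by
    ext x
    constructor
    · rintro h a b t ⟨ha, hb, hc⟩ hab ht
      exact h a ha b hb hab t fun c hct => ⟨hc c hct, ht c hct⟩
    · intro h a ha b hb hab t ht
      exact h a b t ⟨ha, hb, fun c hc => (ht c hc).1⟩ hab fun c hc => (ht c hc).2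
  rw [this]
  simp only [Set.ofPred_forall]
  refine isClosed_iInter fun a => isClosed_iInter fun b => isClosed_iInter fun t => ?_
  refine isClosed_imp ?_ isClosed_const
  have h1 : IsOpen {x : Om → Bool | ∀ c ∈ t, x c = true} := by
    have : {x : Om → Bool | ∀ c ∈ t, x c = true} = ⋂ c ∈ t, {x : Om → Bool | x c = true} := by
      ext x
      simp
    rw [this]
    exact isOpen_biInter_finset fun c _ => hopen c
  exact (hopen a).inter ((hopen b).inter h1)

instance : CompactSpace (K e) := isCompact_iff_compactSpace.1 (isClosed_good e).isCompact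

/-- basic open sets -/
def box (e : Om → Om → ℕ) (s g : Finset Om) : Set (K e) :=
  {x | (∀ a ∈ s, x.1 a = true) ∧ ∀ a ∈ g, x.1 a = false}

theorem isOpen_box (s g : Finset Om) : IsOpen (box e s g) := by
  have h1 : ∀ (a : Om) (v : Bool), IsOpen {x : K e | x.1 a = v} := fun a v =>
    (isOpen_discrete ({v} : Set Bool)).preimage (f := fun x : K e => x.1 a)
      ((continuous_apply a).comp continuous_subtype_val)
  have : box e s g = (⋂ a ∈ s, {x : K e | x.1 a = true}) ∩ ⋂ a ∈ g, {x : K e | x.1 a = false} := by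
    ext x
    simp [box]
  rw [this]
  exact (isOpen_biInter_finset fun c _ => h1 c _).inter (isOpen_biInter_finset fun c _ => h1 c _)

theorem isClosed_box (s g : Finset Om) : IsClosed (box e s g) := by
  have h1 : ∀ (a : Om) (v : Bool), IsClosed {x : K e | x.1 a = v} := fun a v =>
    (isClosed_discrete ({v} : Set Bool)).preimage (f := fun x : K e => x.1 a)
      ((continuous_apply a).comp continuous_subtype_val)
  have : box e s g = (⋂ a ∈ s, {x : K e | x.1 a = true}) ∩ ⋂ a ∈ g, {x : K e | x.1 a = false} := by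
    ext x
    simp [box]
  rw [this]
  exact (isClosed_biInter fun c _ => h1 c _).inter (isClosed_biInter fun c _ => h1 c _)

theorem exists_box {O : Set (K e)} (hO : IsOpen O) {x : K e} (hx : x ∈ O) :
    ∃ s g, x ∈ box e s g ∧ box e s g ⊆ O := by
  classical
  obtain ⟨O', hO', rfl⟩ := isOpen_induced_iff.1 hO
  obtain ⟨I, u, hu, hsub⟩ := isOpen_pi_iff.1 hO' x.1 hx
  refine ⟨I.filter fun a => x.1 a = true, I.filter fun a => x.1 a = false,
    ⟨fun a ha => (Finset.mem_filter.1 ha).2, fun a ha => (Finset.mem_filter.1 ha).2⟩, ?_⟩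
  intro y hy
  apply hsub
  intro a ha
  have : y.1 a = x.1 a := by
    cases hxa : x.1 a with
    | true => exact hy.1 a (Finset.mem_filter.2 ⟨ha, hxa⟩)
    | false => exact hy.2 a (Finset.mem_filter.2 ⟨ha, hxa⟩)
  rw [this]
  exact (hu a ha).2

/-! ### The space is hereditarily metalindelöf -/

theorem countable_finsets {N : Set Om} (hN : N.Countable) :
    {g : Finset Om | (g : Set Om) ⊆ N}.Countable := by
  have h := Set.countable_ofPred_finite_subset hN
  refine (h.preimage_of_injOn (f := fun g : Finset Om => (g : Set Om))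
    (Finset.coe_injective.injOn)).mono fun g hg => ?_
  exact ⟨g.finite_toSet, hg⟩

theorem exists_closure (F : Finset Om → Set Om) (hF : ∀ g, (F g).Countable) :
    ∃ N : Set Om, N.Countable ∧ ∀ g : Finset Om, (g : Set Om) ⊆ N → F g ⊆ N := by
  let M : ℕ → Set Om := fun k => Nat.rec ∅
    (fun _ M => M ∪ ⋃ g ∈ {g : Finset Om | (g : Set Om) ⊆ M}, F g) k
  have hM : ∀ k, M (k + 1) = M k ∪ ⋃ g ∈ {g : Finset Om | (g : Set Om) ⊆ M k}, F g :=
    fun k => rfl
  have hc : ∀ k, (M k).Countable := by
    intro k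
    induction k with
    | zero => exact Set.countable_empty
    | succ k ih =>
      rw [hM]
      exact ih.union ((countable_finsets ih).biUnion fun g _ => hF g)
  have hmono : Monotone M := monotone_nat_of_le_succ fun k => by
    rw [hM]
    exact Set.subset_union_left
  refine ⟨⋃ k, M k, Set.countable_iUnion hc, fun g hg => ?_⟩
  have : ∃ k, (g : Set Om) ⊆ M k := by
    classical
    induction g using Finset.induction_on with
    | empty => exact ⟨0, by simp⟩
    | insert a g _ ih =>
      rw [Finset.coe_insert, Set.insert_subset_iff] at hg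
      obtain ⟨k, hk⟩ := ih hg.2
      obtain ⟨l, hl⟩ := Set.mem_iUnion.1 hg.1
      refine ⟨max k l, ?_⟩
      rw [Finset.coe_insert, Set.insert_subset_iff]
      exact ⟨hmono (le_max_right _ _) hl, hk.trans (hmono (le_max_left _ _))⟩
  obtain ⟨k, hk⟩ := this
  intro x hx
  refine Set.mem_iUnion.2 ⟨k + 1, ?_⟩
  rw [hM]
  exact Or.inr (Set.mem_iUnion₂.2 ⟨g, hk, hx⟩)

theorem exists_refinement (𝒰 : Set (Set (K e))) (h𝒰 : ∀ U ∈ 𝒰, IsOpen U) :
    ∃ 𝒱 : Set (Set (K e)), (∀ V ∈ 𝒱, IsOpen V) ∧ ⋃₀ 𝒰 ⊆ ⋃₀ 𝒱 ∧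
      (∀ V ∈ 𝒱, ∃ U ∈ 𝒰, V ⊆ U) ∧ ∀ x, {V | V ∈ 𝒱 ∧ x ∈ V}.Countable := by
  classical
  let B : Finset Om → Finset Om → Prop := fun s g => ∃ U ∈ 𝒰, box e s g ⊆ U
  have step : ∀ s g1 : Finset Om, ∃ N : Set Om, N.Countable ∧ ∀ x ∈ box e s g1,
      (∃ g' : Finset Om, B s (g1 ∪ g') ∧ ∀ a ∈ g', a ∉ N) →
      ∃ g'' : Finset Om, (g'' : Set Om) ⊆ N ∧ B s (g1 ∪ g'') ∧ x ∈ box e s (g1 ∪ g'') := by
    intro s g1
    by_cases hA : ∃ N : Set Om, N.Countable ∧ ∀ g', B s (g1 ∪ g') → ∃ a ∈ g', a ∈ N
    · obtain ⟨N, hN, hg⟩ := hA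
      refine ⟨N, hN, fun x _ ⟨g', hg', hd⟩ => ?_⟩
      obtain ⟨a, ha, haN⟩ := hg g' hg'
      exact absurd haN (hd a ha)
    · push Not at hA
      have hcov : box e s g1 ⊆ ⋃ g' : {g' : Finset Om // B s (g1 ∪ g')}, box e s (g1 ∪ g'.1) := by
        intro x hx
        obtain ⟨g', hg', hd⟩ := hA (supp x) (countable_supp x)
        refine Set.mem_iUnion.2 ⟨⟨g', hg'⟩, hx.1, fun a ha => ?_⟩
        rcases Finset.mem_union.1 ha with h | h
        · exact hx.2 a h
        · have := hd a h
          simpa [supp] using this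
      obtain ⟨t, ht⟩ := (isClosed_box s g1).isCompact.elim_finite_subcover _
        (fun g' => isOpen_box _ _) hcov
      refine ⟨⋃ g' ∈ t, ((g'.1 : Finset Om) : Set Om),
        (t.finite_toSet.biUnion fun g' _ => g'.1.finite_toSet).countable, fun x hx _ => ?_⟩
      obtain ⟨g', hg't, hxg⟩ := Set.mem_iUnion₂.1 (ht hx)
      exact ⟨g'.1, Set.subset_biUnion_of_mem (u := fun g' : {g' : Finset Om // B s (g1 ∪ g')} =>
        ((g'.1 : Finset Om) : Set Om)) hg't, g'.2, hxg⟩
  choose N0 hN0c hN0 using step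
  have step2 := fun s => exists_closure (N0 s) (hN0c s)
  choose N hNc hN using step2
  refine ⟨{V | ∃ s g, B s g ∧ (g : Set Om) ⊆ N s ∧ V = box e s g}, ?_, ?_, ?_, ?_⟩
  · rintro V ⟨s, g, _, _, rfl⟩
    exact isOpen_box _ _
  · rintro x ⟨U, hU, hxU⟩
    obtain ⟨s, g, hxs, hsub⟩ := exists_box (h𝒰 U hU) hxU
    have hB : B s g := ⟨U, hU, hsub⟩
    have hg : g = (g.filter fun a => a ∈ N s) ∪ g.filter fun a => a ∉ N s :=
      (Finset.filter_union_filter_not_eq _ g).symm
    have hg1 : ((g.filter fun a => a ∈ N s : Finset Om) : Set Om) ⊆ N s := by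
      intro a ha
      exact (Finset.mem_filter.1 ha).2
    obtain ⟨g'', hg'', hB'', hx''⟩ := hN0 s (g.filter fun a => a ∈ N s) x
      ⟨hxs.1, fun a ha => hxs.2 a (Finset.mem_filter.1 ha).1⟩
      ⟨g.filter fun a => a ∉ N s, by rw [← hg]; exact hB, fun a ha haN =>
        (Finset.mem_filter.1 ha).2 (hN s _ hg1 haN)⟩
    refine ⟨_, ⟨s, (g.filter fun a => a ∈ N s) ∪ g'', hB'', ?_, rfl⟩, hx''⟩
    rw [Finset.coe_union]
    exact Set.union_subset hg1 (hg''.trans (hN s _ hg1))
  · rintro V ⟨s, g, ⟨U, hU, hsub⟩, _, rfl⟩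
    exact ⟨U, hU, hsub⟩
  · intro x
    have hc : (⋃ s ∈ {s : Finset Om | (s : Set Om) ⊆ supp x},
        (fun g => box e s g) '' {g : Finset Om | (g : Set Om) ⊆ N s}).Countable :=
      (countable_finsets (countable_supp x)).biUnion fun s _ =>
        (countable_finsets (hNc s)).image _
    refine hc.mono ?_
    rintro V ⟨⟨s, g, _, hg, rfl⟩, hx⟩
    exact Set.mem_iUnion₂.2 ⟨s, fun a ha => hx.1 a ha, g, hg, rfl⟩

theorem hereditarilyMetalindelof (e : Om → Om → ℕ) : HereditarilyMetalindelof (K e) := by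
  intro S 𝒰 h𝒰 hcov
  obtain ⟨𝒱, h1, h2, h3, h4⟩ := exists_refinement
    {U : Set (K e) | IsOpen U ∧ (Subtype.val ⁻¹' U : Set S) ∈ 𝒰} fun U hU => hU.1
  refine ⟨(fun V : Set (K e) => (Subtype.val ⁻¹' V : Set S)) '' 𝒱, ?_, ?_, ?_, ?_⟩
  · rintro _ ⟨V, hV, rfl⟩
    exact (h1 V hV).preimage continuous_subtype_val
  · refine Set.eq_univ_of_forall fun x => ?_
    have hx : x ∈ ⋃₀ 𝒰 := by rw [hcov]; exact Set.mem_univ x
    obtain ⟨U, hU, hxU⟩ := hx
    obtain ⟨U', hU', rfl⟩ := isOpen_induced_iff.1 (h𝒰 U hU)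
    obtain ⟨V, hV, hxV⟩ := h2 ⟨U', ⟨hU', hU⟩, hxU⟩
    exact ⟨_, ⟨V, hV, rfl⟩, hxV⟩
  · rintro _ ⟨V, hV, rfl⟩
    obtain ⟨U, hU, hVU⟩ := h3 V hV
    exact ⟨_, hU.2, Set.preimage_mono hVU⟩
  · intro x
    refine ((h4 x.1).image (fun V : Set (K e) => (Subtype.val ⁻¹' V : Set S))).mono ?_
    rintro _ ⟨⟨V, hV, rfl⟩, hx⟩
    exact ⟨V, ⟨hV, hx⟩, rfl⟩

/-! ### Discrete subspaces -/

theorem mk_Om : #Om = ℵ₁ := mk_ord_toType _

instance : Infinite Om := by
  rw [Cardinal.infinite_iff, mk_Om]
  exact aleph0_lt_aleph_one.le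

theorem mk_discrete_le (D : Set (K e)) (hD : DiscreteTopology D) : #D ≤ ℵ₁ := by
  have h : ∀ d : D, ∃ p : Finset Om × Finset Om, d.1 ∈ box e p.1 p.2 ∧
      ∀ d' ∈ D, d' ∈ box e p.1 p.2 → d' = d.1 := by
    intro d
    obtain ⟨O, hO, hOd⟩ := isOpen_induced_iff.1 (isOpen_discrete ({d} : Set D))
    have hd : d.1 ∈ O := by
      have : d ∈ (Subtype.val ⁻¹' O : Set D) := by rw [hOd]; rfl
      exact this
    obtain ⟨s, g, hs, hsub⟩ := exists_box hO hd
    refine ⟨(s, g), hs, fun d' hd' hb => ?_⟩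
    have : (⟨d', hd'⟩ : D) ∈ (Subtype.val ⁻¹' O : Set D) := hsub hb
    rw [hOd] at this
    exact congrArg Subtype.val this
  choose p hp hp' using h
  have hinj : Function.Injective p := by
    intro d d' hdd
    apply Subtype.ext
    refine hp' d' d.1 d.2 ?_
    rw [← hdd]
    exact hp d
  have h1 := Cardinal.mk_le_of_injective hinj
  rwa [Cardinal.mk_prod, Cardinal.lift_id, Cardinal.mk_finset_of_infinite, mk_Om,
    Cardinal.mul_eq_self aleph0_lt_aleph_one.le] at h1

theorem not_measurable_of_le {κ : Cardinal.{0}} (h : κ ≤ 𝔠) : ¬ IsMeasurableCardinal κ := by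
  rintro ⟨hκ, U, hU1, hU2⟩
  have h1 : #κ.out ≤ #(ℕ → Bool) := by
    rw [mk_out]
    simpa using h
  obtain ⟨φ⟩ := h1
  have h2 : ∀ n, ∃ b : Bool, {x : κ.out | φ x n = b} ∈ U := by
    intro n
    by_cases hn : {x : κ.out | φ x n = true} ∈ U
    · exact ⟨true, hn⟩
    · refine ⟨false, ?_⟩
      have := Ultrafilter.compl_mem_iff_notMem.2 hn
      refine Filter.mem_of_superset this fun x hx => ?_
      simpa using hx
  choose b hb using h2
  have h3 := hU2 (Set.range fun n => {x : κ.out | φ x n = b n})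
    ((Cardinal.mk_range_le.trans (by simp)).trans_lt hκ) (by
      rintro _ ⟨n, rfl⟩
      exact hb n)
  obtain ⟨x, hx⟩ := U.nonempty_of_mem h3
  refine hU1 x (Filter.mem_of_superset h3 fun y hy => ?_)
  apply φ.injective
  funext n
  have h4 : φ x n = b n := hx _ ⟨n, rfl⟩
  have h5 : φ y n = b n := hy _ ⟨n, rfl⟩
  rw [h4, h5]

theorem propertyH (e : Om → Om → ℕ) : PropertyH (K e) :=
  ⟨hereditarilyMetalindelof e, fun D hD =>
    not_measurable_of_le ((mk_discrete_le D hD).trans aleph_one_le_continuum)⟩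

/-! ### Conditions

A condition is a pair `(w, f)` of a finite good set `w` and a function `f` bounding from below
the elements which may be added. -/

/-- `(w', f')` extends `(w, f)`. -/
def Ext (e : Om → Om → ℕ) (w : Finset Om) (f : Finset Om → Om) (w' : Finset Om)
    (f' : Finset Om → Om) : Prop :=
  w ⊆ w' ∧ Good e (w' : Set Om) ∧
    (∀ b ∈ w', b ∉ w → (∀ a ∈ w, a < b) ∧ f (w'.filter (· < b)) < b) ∧ ∀ u, f u ≤ f' u

/-- The set `z` obeys the condition `(w, f)`. -/
def Obeys (w : Finset Om) (f : Finset Om → Om) (z : Set Om) : Prop :=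
  (w : Set Om) ⊆ z ∧ ∀ b ∈ z, b ∉ w → (∀ a ∈ w, a < b) ∧
    ∀ u : Finset Om, (∀ a, a ∈ u ↔ a ∈ z ∧ a < b) → f u < b

/-- Every condition has an extension in `D`. -/
def Dense (e : Om → Om → ℕ) (D : Finset Om → (Finset Om → Om) → Prop) : Prop :=
  ∀ (w : Finset Om) (f : Finset Om → Om), Good e (w : Set Om) →
    ∃ w' f', Ext e w f w' f' ∧ D w' f'

/-- `A` contains all points which obey a fixed condition `(∅, f)` and meet countably many fixed
dense sets. -/
def Full (A : Set (K e)) : Prop :=
  ∃ f : Finset Om → Om, ∃ D : ℕ → Finset Om → (Finset Om → Om) → Prop, (∀ k, Dense e (D k)) ∧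
    ∀ z : K e, Obeys ∅ f (supp z) → (∀ k, ∃ w' f', D k w' f' ∧ Obeys w' f' (supp z)) → z ∈ A

theorem filter_eq {w w' : Finset Om} {b : Om} (hw : w ⊆ w')
    (h : ∀ c ∈ w', c ∉ w → ∀ a ∈ w, a < c) (hb : b ∈ w) :
    w'.filter (· < b) = w.filter (· < b) := by
  ext c
  simp only [Finset.mem_filter]
  constructor
  · rintro ⟨hc, hcb⟩
    refine ⟨?_, hcb⟩
    by_contra hcw
    exact lt_asymm hcb (h c hc hcw b hb)
  · rintro ⟨hc, hcb⟩
    exact ⟨hw hc, hcb⟩

theorem Ext.refl {w : Finset Om} {f : Finset Om → Om} (hw : Good e (w : Set Om)) :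
    Ext e w f w f :=
  ⟨Finset.Subset.refl _, hw, fun b hb hb' => absurd hb hb', fun _ => le_refl _⟩

theorem Ext.trans {w w' w'' : Finset Om} {f f' f'' : Finset Om → Om} (h : Ext e w f w' f')
    (h' : Ext e w' f' w'' f'') : Ext e w f w'' f'' := by
  refine ⟨h.1.trans h'.1, h'.2.1, fun b hb hbw => ?_, fun u => (h.2.2.2 u).trans (h'.2.2.2 u)⟩
  by_cases hb' : b ∈ w'
  · rw [filter_eq h'.1 (fun c hc hc' => (h'.2.2.1 c hc hc').1) hb']
    exact h.2.2.1 b hb' hbw
  · have h1 := h'.2.2.1 b hb hb'
    exact ⟨fun a ha => h1.1 a (h.1 ha), (h.2.2.2 _).trans_lt h1.2⟩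

theorem Good.union {W : ℕ → Finset Om} (hmono : ∀ k, W k ⊆ W (k + 1))
    (hW : ∀ k, Good e (W k : Set Om)) : Good e (⋃ k, (W k : Set Om)) := by
  have hm : Monotone fun k => (W k : Set Om) := monotone_nat_of_le_succ fun k =>
    Finset.coe_subset.2 (hmono k)
  intro a ha b hb hab t ht
  have : ∃ k, (a ∈ W k ∧ b ∈ W k) ∧ ∀ c ∈ t, c ∈ W k := by
    obtain ⟨k, hk⟩ := Set.mem_iUnion.1 ha
    obtain ⟨l, hl⟩ := Set.mem_iUnion.1 hb
    have h2 : ∀ t : Finset Om, (∀ c ∈ t, c ∈ ⋃ k, (W k : Set Om)) → ∃ m, ∀ c ∈ t, c ∈ W m := by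
      classical
      intro t
      induction t using Finset.induction_on with
      | empty => exact fun _ => ⟨0, by simp⟩
      | insert c t _ ih =>
        intro h
        obtain ⟨m, hm'⟩ := ih fun c hc => h c (Finset.mem_insert_of_mem hc)
        obtain ⟨m', hm''⟩ := Set.mem_iUnion.1 (h c (Finset.mem_insert_self _ _))
        refine ⟨max m m', fun d hd => ?_⟩
        rcases Finset.mem_insert.1 hd with rfl | hd
        · exact hm (le_max_right m m') hm''
        · exact hm (le_max_left m m') (hm' d hd)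
    obtain ⟨m, hm'⟩ := h2 t fun c hc => (ht c hc).1
    refine ⟨max (max k l) m, ⟨hm (le_trans (le_max_left k l) (le_max_left _ m)) hk,
      hm (le_trans (le_max_right k l) (le_max_left _ m)) hl⟩, fun c hc =>
      hm (le_max_right _ m) (hm' c hc)⟩
  obtain ⟨k, hk, hk'⟩ := this
  exact hW k a hk.1 b hk.2 hab t fun c hc => ⟨hk' c hc, (ht c hc).2⟩

theorem good_empty : Good e ((∅ : Finset Om) : Set Om) := by
  intro a ha
  simp at ha

theorem good_singleton (x : Om) : Good e (({x} : Finset Om) : Set Om) := by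
  intro a ha b hb hab
  simp only [Finset.coe_singleton, Set.mem_singleton_iff] at ha hb
  rw [ha, hb] at hab
  exact absurd hab (lt_irrefl _)

theorem Full.nonempty {A : Set (K e)} (h : Full A) : A.Nonempty := by
  classical
  obtain ⟨f, D, hD, hA⟩ := h
  have step : ∀ (k : ℕ) (c : {c : Finset Om × (Finset Om → Om) // Good e (c.1 : Set Om)}),
      ∃ c' : {c : Finset Om × (Finset Om → Om) // Good e (c.1 : Set Om)},
        Ext e c.1.1 c.1.2 c'.1.1 c'.1.2 ∧ D k c'.1.1 c'.1.2 := by
    intro k c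
    obtain ⟨w', f', h1, h2⟩ := hD k c.1.1 c.1.2 c.2
    exact ⟨⟨(w', f'), h1.2.1⟩, h1, h2⟩
  choose nxt hn1 hn2 using step
  let c : ℕ → {c : Finset Om × (Finset Om → Om) // Good e (c.1 : Set Om)} := fun k =>
    Nat.rec ⟨(∅, f), good_empty⟩ (fun k c => nxt k c) k
  have hc : ∀ k, c (k + 1) = nxt k (c k) := fun k => rfl
  have hext1 : ∀ k, Ext e (c k).1.1 (c k).1.2 (c (k + 1)).1.1 (c (k + 1)).1.2 := by
    intro k
    rw [hc]
    exact hn1 k (c k)
  have hext : ∀ k l, k ≤ l → Ext e (c k).1.1 (c k).1.2 (c l).1.1 (c l).1.2 := by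
    intro k l hkl
    induction l, hkl using Nat.le_induction with
    | base => exact Ext.refl (c k).2
    | succ l _ ih => exact ih.trans (hext1 l)
  have hgood := Good.union (e := e) (W := fun k => (c k).1.1) (fun k => (hext1 k).1)
    fun k => (c k).2
  have hobey : ∀ k, Obeys (c k).1.1 (c k).1.2 (⋃ k, ((c k).1.1 : Set Om)) := by
    intro k
    refine ⟨Set.subset_iUnion (fun k => ((c k).1.1 : Set Om)) k, fun b hb hbk => ?_⟩
    obtain ⟨l, hl⟩ := Set.mem_iUnion.1 hb
    have hkl : k ≤ l := by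
      by_contra hlk
      exact hbk ((hext l k (not_le.1 hlk).le).1 hl)
    have h1 := (hext k l hkl).2.2.1 b hl hbk
    refine ⟨h1.1, fun u hu => ?_⟩
    have : u = (c l).1.1.filter (· < b) := by
      ext a
      rw [hu, Finset.mem_filter]
      constructor
      · rintro ⟨ha, hab⟩
        refine ⟨?_, hab⟩
        obtain ⟨m, hm⟩ := Set.mem_iUnion.1 ha
        by_contra hal
        have hlm : l ≤ m := by
          by_contra hml
          exact hal ((hext m l (not_le.1 hml).le).1 hm)
        exact lt_asymm hab (((hext l m hlm).2.2.1 a hm hal).1 b hl)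
      · rintro ⟨ha, hab⟩
        exact ⟨Set.mem_iUnion.2 ⟨l, ha⟩, hab⟩
    rw [this]
    exact h1.2
  refine ⟨mk _ hgood, hA _ ?_ fun k => ⟨(c (k + 1)).1.1, (c (k + 1)).1.2, ?_, ?_⟩⟩
  · rw [supp_mk]
    exact hobey 0
  · rw [hc]
    exact hn2 k (c k)
  · rw [supp_mk]
    exact hobey (k + 1)

theorem exists_sup (ι : Type) [Countable ι] (g : ι → Om) : ∃ a, ∀ i, g i < a := by
  obtain ⟨a, ha⟩ := exists_bound (Set.range g) (Set.countable_range g)
  exact ⟨a, fun i => ha _ ⟨i, rfl⟩⟩

theorem Full.mono {A B : Set (K e)} (h : Full A) (hAB : A ⊆ B) : Full B := by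
  obtain ⟨f, D, hD, hA⟩ := h
  exact ⟨f, D, hD, fun z h1 h2 => hAB (hA z h1 h2)⟩

theorem Obeys.anti {f f' : Finset Om → Om} (h : ∀ u, f u ≤ f' u) {z : Set Om} {w : Finset Om}
    (hz : Obeys w f' z) : Obeys w f z :=
  ⟨hz.1, fun b hb hbw => ⟨(hz.2 b hb hbw).1, fun u hu => (h u).trans_lt ((hz.2 b hb hbw).2 u hu)⟩⟩

theorem Full.iInter {A : ℕ → Set (K e)} (h : ∀ n, Full (A n)) : Full (⋂ n, A n) := by
  choose f D hD hA using h
  have h1 : ∀ u, ∃ a, ∀ n, f n u < a := fun u => exists_sup ℕ fun n => f n u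
  choose F hF using h1
  refine ⟨F, fun k => D (Nat.unpair k).1 (Nat.unpair k).2, fun k => hD _ _, fun z h1 h2 => ?_⟩
  refine Set.mem_iInter.2 fun n => hA n z (h1.anti fun u => (hF u n).le) fun k => ?_
  have := h2 (Nat.pair n k)
  simpa using this

theorem Full.univ : Full (Set.univ : Set (K e)) :=
  ⟨fun _ => Classical.arbitrary Om, fun _ _ _ => True,
    fun _ w f hw => ⟨w, f, Ext.refl hw, trivial⟩, fun _ _ _ => Set.mem_univ _⟩

theorem Full.inter {A B : Set (K e)} (hA : Full A) (hB : Full B) : Full (A ∩ B) := by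
  have h := Full.iInter (A := fun n : ℕ => if n = 0 then A else B) fun n => by
    by_cases hn : n = 0
    · simpa [hn] using hA
    · simpa [hn] using hB
  refine h.mono fun z hz => ⟨?_, ?_⟩
  · simpa using Set.mem_iInter.1 hz 0
  · simpa using Set.mem_iInter.1 hz 1

theorem not_full_compl {A : Set (K e)} (hA : Full A) : ¬ Full Aᶜ := by
  intro h
  obtain ⟨z, h1, h2⟩ := (hA.inter h).nonempty
  exact h2 h1

/-! ### The zero-one law for open sets -/

/-- The iterated quantifier: for unboundedly many `x₁`, ..., for unboundedly many `xₙ`. -/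
def Fub : ℕ → (Finset Om → Prop) → Finset Om → Prop
  | 0, Q, s => Q s
  | n + 1, Q, s => ∀ β, ∃ x, β < x ∧ Fub n Q (insert x s)

theorem Fub.mono {n : ℕ} {Q Q' : Finset Om → Prop} (h : ∀ s, Q s → Q' s) {s : Finset Om}
    (hs : Fub n Q s) : Fub n Q' s := by
  induction n generalizing s with
  | zero => exact h s hs
  | succ n ih =>
    intro β
    obtain ⟨x, hx, hx'⟩ := hs β
    exact ⟨x, hx, ih hx'⟩

theorem Fub.above {n : ℕ} {Q : Finset Om → Prop} (β0 : Om) {s : Finset Om} (hs : Fub n Q s) :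
    Fub n (fun s' => Q s' ∧ ∀ x ∈ s', x ∈ s ∨ β0 < x) s := by
  induction n generalizing s with
  | zero => exact ⟨hs, fun x hx => Or.inl hx⟩
  | succ n ih =>
    intro β
    obtain ⟨x, hx, hx'⟩ := hs (max β β0)
    refine ⟨x, (le_max_left _ _).trans_lt hx, (ih hx').mono fun s' hs' => ⟨hs'.1, fun y hy => ?_⟩⟩
    rcases hs'.2 y hy with h | h
    · rcases Finset.mem_insert.1 h with rfl | h
      · exact Or.inr ((le_max_right _ _).trans_lt hx)
      · exact Or.inl h
    · exact Or.inr h

theorem Fub.exists_nat {n : ℕ} {Q : ℕ → Finset Om → Prop} {s : Finset Om}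
    (hs : Fub n (fun s => ∃ i, Q i s) s) : ∃ i, Fub n (Q i) s := by
  induction n generalizing s with
  | zero => exact hs
  | succ n ih =>
    by_contra hc
    push Not at hc
    have h1 : ∀ i, ∃ β, ∀ x, β < x → ¬ Fub n (Q i) (insert x s) := by
      intro i
      have := hc i
      simp only [Fub] at this
      push Not at this
      exact this
    choose β hβ using h1
    obtain ⟨b, hb⟩ := exists_sup ℕ β
    obtain ⟨x, hx, hx'⟩ := hs b
    obtain ⟨i, hi⟩ := ih hx'
    exact hβ i x ((hb i).trans hx) hi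

/-- the finite good sets `s` with a basic neighbourhood `[s, g]` inside `O` -/
def Q0 (O : Set (K e)) (s : Finset Om) : Prop :=
  Good e (s : Set Om) ∧ ∃ g : Finset Om, box e s g ⊆ O ∧ ∀ a ∈ g, a ∉ s

/-- the sets `s` which can be put on top of `w` so as to get into `O` -/
def Q1 (O : Set (K e)) (w s : Finset Om) : Prop :=
  Good e ((w ∪ s : Finset Om) : Set Om) ∧ ∃ g : Finset Om, box e s g ⊆ O ∧ ∀ a ∈ g, a ∉ w ∪ s

theorem full_compl_of_null {O : Set (K e)} (hO : IsOpen O) (h : ∀ n, ¬ Fub n (Q0 O) ∅) :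
    Full Oᶜ := by
  classical
  have h1 : ∀ (s : Finset Om) (k : ℕ), ∃ β, ¬ Fub (k + 1) (Q0 O) s →
      ∀ x, β < x → ¬ Fub k (Q0 O) (insert x s) := by
    intro s k
    by_cases hk : Fub (k + 1) (Q0 O) s
    · exact ⟨Classical.arbitrary Om, fun h => absurd hk h⟩
    · have := hk
      simp only [Fub] at this
      push Not at this
      obtain ⟨β, hβ⟩ := this
      exact ⟨β, fun _ => hβ⟩
  choose B hB using h1
  have h2 : ∀ u : Finset Om, ∃ a, ∀ p : {s : Finset Om // s ∈ u.powerset} × ℕ, B p.1.1 p.2 < a :=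
    fun u => exists_sup _ _
  choose f hf using h2
  refine ⟨f, fun _ _ _ => True, fun _ w f hw => ⟨w, f, Ext.refl hw, trivial⟩,
    fun z hz _ hzO => ?_⟩
  obtain ⟨s, g, hzs, hsub⟩ := exists_box hO hzO
  have claim : ∀ s : Finset Om, (s : Set Om) ⊆ supp z → ∀ k, ¬ Fub k (Q0 O) s := by
    intro s
    induction s using Finset.induction_on_max with
    | empty => exact fun _ k => h k
    | insert x s hx ih =>
      intro hs k
      rw [Finset.coe_insert, Set.insert_subset_iff] at hs
      refine hB s k (ih hs.2 (k + 1)) x ?_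
      have hfin := (good_supp z).finite_lt hs.1
      have h3 := (hz.2 x hs.1 (by simp)).2 hfin.toFinset fun a => by simp
      refine lt_trans (hf hfin.toFinset (⟨s, ?_⟩, k)) h3
      refine Finset.mem_powerset.2 fun a ha => ?_
      simp only [Set.Finite.mem_toFinset]
      exact ⟨hs.2 ha, hx a ha⟩
  have hs : (s : Set Om) ⊆ supp z := fun a ha => hzs.1 a ha
  refine claim s hs 0 ⟨(good_supp z).mono hs, g, hsub, fun a hag has => ?_⟩
  have h4 := hzs.1 a has
  rw [hzs.2 a hag] at h4
  exact absurd h4 (by simp)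

theorem exists_good_base {O : Set (K e)} (he : ∀ b n, {a | a < b ∧ e a b ≤ n}.Finite) {n : ℕ}
    (h : Fub n (Q0 O) ∅) :
    ∃ γ, ∀ w : Finset Om, Good e (w : Set Om) → (∀ a ∈ w, γ < a) → Fub n (Q1 O w) ∅ := by
  classical
  have main : ∀ m : ℕ, ∃ γ, ∀ w : Finset Om, Good e (w : Set Om) → w.card = m →
      (∀ a ∈ w, γ < a) → Fub n (Q1 O w) ∅ := by
    intro m
    by_contra hc
    push Not at hc
    choose W hW1 hW2 hW3 hW4 using hc
    have hnext : ∀ γ, ∃ γ', γ < γ' ∧ ∀ a ∈ W γ, a < γ' := by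
      intro γ
      obtain ⟨a, ha⟩ := exists_bound (insert γ (W γ : Set Om))
        ((W γ).finite_toSet.countable.insert _)
      exact ⟨a, ha γ (Set.mem_insert _ _), fun b hb => ha b (Set.mem_insert_of_mem _ hb)⟩
    choose nx hnx1 hnx2 using hnext
    let G : ℕ → Om := fun k => Nat.rec (Classical.arbitrary Om) (fun _ γ => nx γ) k
    have hG : ∀ k, G (k + 1) = nx (G k) := fun k => rfl
    have hGm : StrictMono G := strictMono_nat_of_lt_succ fun k => by
      rw [hG]
      exact hnx1 _
    obtain ⟨β0, hβ0⟩ := exists_sup ℕ G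
    have hWlt : ∀ i, ∀ a ∈ W (G i), a < G (i + 1) := fun i a ha => by
      rw [hG]
      exact hnx2 _ a ha
    have hdisj : ∀ i j, ∀ a, a ∈ W (G i) → a ∈ W (G j) → i = j := by
      intro i j a hi hj
      rcases lt_trichotomy i j with h1 | h1 | h1
      · have h2 := (hWlt i a hi).trans_le (hGm.monotone h1)
        exact absurd (h2.trans (hW3 _ a hj)) (lt_irrefl _)
      · exact h1
      · have h2 := (hWlt j a hj).trans_le (hGm.monotone h1)
        exact absurd (h2.trans (hW3 _ a hi)) (lt_irrefl _)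
    have key : Fub n (fun s => ∃ i, Q1 O (W (G i)) s) ∅ := by
      refine (h.above β0).mono fun s hs => ?_
      obtain ⟨⟨hgs, g, hsub, hgs'⟩, habove⟩ := hs
      have habove' : ∀ x ∈ s, β0 < x := fun x hx => by simpa using habove x hx
      -- the finite set of bad ordinals
      have hbad : ((g : Set Om) ∪ ⋃ b ∈ s, {a | a < b ∧ e a b ≤ m + s.card}).Finite :=
        g.finite_toSet.union (s.finite_toSet.biUnion fun b _ => he b _)
      have hex : ∃ i, ∀ a ∈ W (G i), a ∉ ((g : Set Om) ∪
          ⋃ b ∈ s, {a | a < b ∧ e a b ≤ m + s.card}) := by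
        by_contra hcon
        push Not at hcon
        choose q hq1 hq2 using hcon
        have hinj : Function.Injective q := fun i j hij =>
          hdisj i j (q i) (hq1 i) (hij ▸ hq1 j)
        exact Set.infinite_of_injective_forall_mem hinj hq2 hbad
      obtain ⟨i, hi⟩ := hex
      have hlt : ∀ a ∈ W (G i), ∀ b ∈ s, a < b := fun a ha b hb =>
        ((hWlt i a ha).trans (hβ0 (i + 1))).trans (habove' b hb)
      refine ⟨i, ?_, g, hsub, fun a ha hau => ?_⟩
      · intro a ha b hb hab t ht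
        rw [Finset.coe_union] at ha hb ht
        rcases ha with ha | ha
        · rcases hb with hb | hb
          · refine hW1 (G i) a ha b hb hab t fun c hc => ?_
            rcases (ht c hc).1 with h1 | h1
            · exact ⟨h1, (ht c hc).2⟩
            · exact absurd (hlt b hb c h1) (lt_asymm (ht c hc).2.2)
          · have h1 : t.card ≤ (W (G i) ∪ s).card := Finset.card_le_card fun c hc => by
              have := (ht c hc).1
              rw [← Finset.coe_union] at this
              exact this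
            have h2 : (W (G i) ∪ s).card ≤ m + s.card := by
              refine (Finset.card_union_le _ _).trans ?_
              rw [hW2]
            have h3 := hi a ha
            have h4 : ¬ e a b ≤ m + s.card := fun h5 =>
              h3 (Or.inr (Set.mem_iUnion₂.2 ⟨b, hb, hab, h5⟩))
            omega
        · rcases hb with hb | hb
          · exact absurd (hlt b hb a ha) (lt_asymm hab)
          · refine hgs a ha b hb hab t fun c hc => ?_
            rcases (ht c hc).1 with h1 | h1
            · exact absurd (hlt c h1 a ha) (lt_asymm (ht c hc).2.1)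
            · exact ⟨h1, (ht c hc).2⟩
      · rcases Finset.mem_union.1 hau with h1 | h1
        · exact hi a h1 (Or.inl ha)
        · exact hgs' a ha h1
    obtain ⟨i, hi⟩ := key.exists_nat
    exact hW4 (G i) hi
  choose γ hγ using main
  obtain ⟨γ0, hγ0⟩ := exists_sup ℕ γ
  exact ⟨γ0, fun w hw hwa => hγ w.card w hw rfl fun a ha => (hγ0 _).trans (hwa a ha)⟩

theorem exists_top {O : Set (K e)} (w : Finset Om) (f : Finset Om → Om) (k : ℕ) :
    ∀ s : Finset Om, Fub k (Q1 O w) s → ∃ s', s ⊆ s' ∧ Q1 O w s' ∧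
      ∀ b ∈ w ∪ s', b ∉ w ∪ s → (∀ a ∈ w ∪ s, a < b) ∧ f ((w ∪ s').filter (· < b)) < b := by
  classical
  induction k with
  | zero => exact fun s hs => ⟨s, Finset.Subset.refl _, hs, fun b hb hb' => absurd hb hb'⟩
  | succ k ih =>
    intro s hs
    obtain ⟨β, hβ⟩ := exists_bound (insert (f (w ∪ s)) ((w ∪ s : Finset Om) : Set Om))
      ((w ∪ s).finite_toSet.countable.insert _)
    obtain ⟨x, hx, hx'⟩ := hs β
    obtain ⟨s', hs1, hs2, hs3⟩ := ih _ hx'
    have hxw : ∀ a ∈ w ∪ s, a < x := fun a ha => (hβ a (Set.mem_insert_of_mem _ ha)).trans hx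
    have hws : w ∪ s ⊆ w ∪ insert x s := Finset.union_subset_union_right (Finset.subset_insert _ _)
    refine ⟨s', (Finset.subset_insert _ _).trans hs1, hs2, fun b hb hbs => ?_⟩
    by_cases hbx : b = x
    · subst hbx
      refine ⟨hxw, ?_⟩
      have : (w ∪ s').filter (· < b) = w ∪ s := by
        ext c
        rw [Finset.mem_filter]
        constructor
        · rintro ⟨hc, hcb⟩
          by_contra hcs
          have hc' : c ∉ w ∪ insert b s := by
            intro h
            rcases Finset.mem_union.1 h with h | h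
            · exact hcs (Finset.mem_union_left _ h)
            · rcases Finset.mem_insert.1 h with rfl | h
              · exact lt_irrefl _ hcb
              · exact hcs (Finset.mem_union_right _ h)
          exact lt_asymm hcb ((hs3 c hc hc').1 b (Finset.mem_union_right _
            (Finset.mem_insert_self _ _)))
        · intro hc
          refine ⟨?_, hxw c hc⟩
          rcases Finset.mem_union.1 hc with h | h
          · exact Finset.mem_union_left _ h
          · exact Finset.mem_union_right _ (hs1 (Finset.mem_insert_of_mem h))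
      rw [this]
      exact (hβ _ (Set.mem_insert _ _)).trans hx
    · have hb' : b ∉ w ∪ insert x s := by
        intro h
        rcases Finset.mem_union.1 h with h | h
        · exact hbs (Finset.mem_union_left _ h)
        · rcases Finset.mem_insert.1 h with h | h
          · exact hbx h
          · exact hbs (Finset.mem_union_right _ h)
      exact ⟨fun a ha => (hs3 b hb hb').1 a (hws ha), (hs3 b hb hb').2⟩

theorem full_of_positive {O : Set (K e)} (he : ∀ b n, {a | a < b ∧ e a b ≤ n}.Finite) {n : ℕ}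
    (h : Fub n (Q0 O) ∅) : Full O := by
  classical
  obtain ⟨γ, hγ⟩ := exists_good_base he h
  refine ⟨fun _ => γ, fun _ w f => (∃ a ∈ w, a ≤ γ) ∨ ∃ s g : Finset Om, s ⊆ w ∧
    (∀ a ∈ g, a ∉ w) ∧ box e s g ⊆ O ∧ ∀ u, ∀ a ∈ g, a ≤ f u, fun _ w f hw => ?_,
    fun z hz hz' => ?_⟩
  · by_cases hwγ : ∃ a ∈ w, a ≤ γ
    · exact ⟨w, f, Ext.refl hw, Or.inl hwγ⟩
    · push Not at hwγ
      obtain ⟨s, -, ⟨hs1, g, hs2, hs3⟩, hs4⟩ := exists_top w f n ∅ (hγ w hw hwγ)
      obtain ⟨c, hc⟩ := exists_bound (g : Set Om) g.finite_toSet.countable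
      refine ⟨w ∪ s, fun u => max (f u) c, ⟨Finset.subset_union_left, hs1, fun b hb hbw => ?_,
        fun u => le_max_left _ _⟩, Or.inr ⟨s, g, Finset.subset_union_right, hs3, hs2,
        fun u a ha => (hc a ha).le.trans (le_max_right _ _)⟩⟩
      have h1 := hs4 b hb (by simpa using hbw)
      exact ⟨fun a ha => h1.1 a (by simpa using ha), h1.2⟩
  · obtain ⟨w, f, hD, hw⟩ := hz' 0
    rcases hD with ⟨a, ha, haγ⟩ | ⟨s, g, hsw, hgw, hsub, hgf⟩
    · have haz := hw.1 ha
      have hfin := (good_supp z).finite_lt haz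
      have h3 := (hz.2 a haz (by simp)).2 hfin.toFinset fun a => by simp
      exact absurd h3 (not_lt.2 haγ)
    · refine hsub ⟨fun a ha => hw.1 (hsw ha), fun a ha => ?_⟩
      by_contra hza
      have haz : a ∈ supp z := by
        simpa [supp] using hza
      have hfin := (good_supp z).finite_lt haz
      have h3 := (hw.2 a haz (hgw a ha)).2 hfin.toFinset fun a => by simp
      exact absurd h3 (not_lt.2 (hgf _ a ha))

theorem zero_one {O : Set (K e)} (he : ∀ b n, {a | a < b ∧ e a b ≤ n}.Finite) (hO : IsOpen O) :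
    Full O ∨ Full Oᶜ := by
  by_cases h : ∃ n, Fub n (Q0 O) ∅
  · obtain ⟨n, hn⟩ := h
    exact Or.inl (full_of_positive he hn)
  · push Not at h
    exact Or.inr (full_compl_of_null hO h)

/-! ### The measure -/

theorem zero_one_borel (he : ∀ b n, {a | a < b ∧ e a b ≤ n}.Finite) {B : Set (K e)}
    (hB : MeasurableSet[borel (K e)] B) : Full B ∨ Full Bᶜ := by
  let m : MeasurableSpace (K e) :=
    { MeasurableSet' := fun B => Full B ∨ Full Bᶜ
      measurableSet_empty := by
        right
        rw [Set.compl_empty]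
        exact Full.univ
      measurableSet_compl := fun B hB => by
        rw [compl_compl]
        exact hB.symm
      measurableSet_iUnion := fun A hA => by
        by_cases h : ∃ i, Full (A i)
        · obtain ⟨i, hi⟩ := h
          exact Or.inl (hi.mono (Set.subset_iUnion A i))
        · push Not at h
          right
          rw [Set.compl_iUnion]
          exact Full.iInter fun i => (hA i).resolve_left (h i) }
  have hle : borel (K e) ≤ m := MeasurableSpace.generateFrom_le fun O hO => zero_one he hO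
  exact hle B hB

open Classical in
/-- The two-valued measure of the full sets. -/
noncomputable def mu (he : ∀ b n, {a | a < b ∧ e a b ≤ n}.Finite) : @Measure (K e) (borel (K e)) :=
  @Measure.ofMeasurable (K e) (borel (K e)) (fun B _ => if Full B then 1 else 0)
    (by
      have : ¬ Full (∅ : Set (K e)) := fun h => by simpa using h.nonempty
      simp [this])
    (by
      intro A hA hd
      by_cases h : ∃ i, Full (A i)
      · obtain ⟨i, hi⟩ := h
        rw [if_pos (hi.mono (Set.subset_iUnion A i)), tsum_eq_single i, if_pos hi]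
        intro j hj
        refine if_neg fun hj' => ?_
        obtain ⟨z, hz1, hz2⟩ := (hi.inter hj').nonempty
        exact Set.disjoint_left.1 (hd hj.symm) hz1 hz2
      · push Not at h
        have h1 : Full (⋃ i, A i)ᶜ := by
          rw [Set.compl_iUnion]
          exact Full.iInter fun i => (zero_one_borel he (hA i)).resolve_left (h i)
        have h2 : ¬ Full (⋃ i, A i) := fun h3 => not_full_compl h3 h1
        simp [h2, h])

open Classical in
theorem mu_apply (he : ∀ b n, {a | a < b ∧ e a b ≤ n}.Finite) {B : Set (K e)}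
    (hB : MeasurableSet[borel (K e)] B) : mu he B = if Full B then 1 else 0 :=
  @Measure.ofMeasurable_apply (K e) (borel (K e)) _ _ _ B hB

theorem mu_univ (he : ∀ b n, {a | a < b ∧ e a b ≤ n}.Finite) : mu he Set.univ = 1 := by
  rw [mu_apply he (@MeasurableSet.univ _ (borel (K e))), if_pos Full.univ]

/-- The complement of the point `∅` of `K e` is full. -/
theorem full_nonempty : Full {z : K e | (supp z).Nonempty} := by
  classical
  refine ⟨fun _ => Classical.arbitrary Om, fun _ w _ => w.Nonempty, fun _ w f hw => ?_,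
    fun z _ hz' => ?_⟩
  · by_cases hne : w.Nonempty
    · exact ⟨w, f, Ext.refl hw, hne⟩
    · rw [Finset.not_nonempty_iff_eq_empty] at hne
      subst hne
      obtain ⟨x, hx⟩ := exists_sup Unit fun _ => f ∅
      refine ⟨{x}, f, ⟨Finset.empty_subset _, good_singleton x, fun b hb _ => ⟨by simp, ?_⟩,
        fun _ => le_refl _⟩, Finset.singleton_nonempty x⟩
      rw [Finset.mem_singleton] at hb
      subst hb
      have : ({b} : Finset Om).filter (· < b) = ∅ := by
        ext c
        simp only [Finset.mem_filter, Finset.mem_singleton]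
        constructor
        · rintro ⟨rfl, h⟩
          exact absurd h (lt_irrefl _)
        · intro h
          simp at h
      rw [this]
      exact hx ()
  · obtain ⟨w, f, hne, hw⟩ := hz' 0
    obtain ⟨a, ha⟩ := hne
    exact ⟨a, hw.1 ha⟩

theorem isOpen_nonempty : IsOpen {z : K e | (supp z).Nonempty} := by
  classical
  have : {z : K e | (supp z).Nonempty} = ⋃ a : Om, box e {a} ∅ := by
    ext z
    simp [box, supp, Set.Nonempty]
  rw [this]
  exact isOpen_iUnion fun a => isOpen_box _ _

/-- A compact set which does not contain the point `∅` is null. -/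
theorem full_compl_of_isCompact {L : Set (K e)} (hL : IsCompact L)
    (h : L ⊆ {z : K e | (supp z).Nonempty}) : Full Lᶜ := by
  classical
  have hcov : L ⊆ ⋃ a : Om, box e {a} ∅ := by
    intro z hz
    obtain ⟨a, ha⟩ := h hz
    refine Set.mem_iUnion.2 ⟨a, fun b hb => ?_, by simp⟩
    rw [Finset.mem_singleton] at hb
    subst hb
    exact ha
  obtain ⟨t, ht⟩ := hL.elim_finite_subcover _ (fun a => isOpen_box _ _) hcov
  obtain ⟨c, hc⟩ := exists_bound (t : Set Om) t.finite_toSet.countable
  refine ⟨fun _ => c, fun _ _ _ => True, fun _ w f hw => ⟨w, f, Ext.refl hw, trivial⟩,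
    fun z hz _ hzL => ?_⟩
  obtain ⟨a, hat, haz⟩ := Set.mem_iUnion₂.1 (ht hzL)
  have ha : a ∈ supp z := haz.1 a (Finset.mem_singleton_self a)
  have hfin := (good_supp z).finite_lt ha
  have h3 := (hz.2 a ha (by simp)).2 hfin.toFinset fun a => by simp
  exact lt_asymm h3 (hc a hat)

theorem mu_compact (he : ∀ b n, {a | a < b ∧ e a b ≤ n}.Finite) {L : Set (K e)}
    (hL : IsCompact L) (h : L ⊆ {z : K e | (supp z).Nonempty}) : mu he L = 0 := by
  have hm : MeasurableSet[borel (K e)] L :=
    @MeasurableSet.of_compl (K e) L (borel (K e))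
      (MeasurableSpace.measurableSet_generateFrom hL.isClosed.isOpen_compl)
  rw [mu_apply he hm, if_neg fun h1 => not_full_compl h1 (full_compl_of_isCompact hL h)]

theorem not_radon (he : ∀ b n, {a | a < b ∧ e a b ≤ n}.Finite) : ¬ IsRadonSpace (K e) := by
  intro h
  have hm : MeasurableSet[borel (K e)] {z : K e | (supp z).Nonempty} :=
    MeasurableSpace.measurableSet_generateFrom isOpen_nonempty
  have h1 := h (mu he) (by rw [mu_univ]; exact ENNReal.one_lt_top) _ hm
  rw [mu_apply he hm, if_pos full_nonempty] at h1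
  have h2 : (⨆ L : {L : Set (K e) // IsCompact L ∧ L ⊆ {z : K e | (supp z).Nonempty}},
      mu he L) = 0 := by
    refine le_antisymm (iSup_le fun L => ?_) bot_le
    rw [mu_compact he L.2.1 L.2.2]
  rw [h2] at h1
  exact one_ne_zero h1

/-- **In ZFC there is a compact space with (H) which is not Radon.** Moreover, the space is a
Corson compactum of weight at most `ℵ₁` (it embeds into the `Σ`-product of `ℵ₁` copies of
`{0,1}`), all its discrete subspaces have at most `ℵ₁` points, and for some point `p` it carries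
a probability Borel measure with values `0` and `1` only, for which `p` and all compact sets
missing `p` are null. -/
theorem result : ∃ (X : Type) (_ : TopologicalSpace X),
    CompactSpace X ∧ T2Space X ∧ PropertyH X ∧ ¬ IsRadonSpace X ∧
    (∃ (ι : Type) (f : X → ι → Bool), #ι = ℵ₁ ∧ IsEmbedding f ∧
      ∀ x, {i | f x i = true}.Countable) ∧
    (∀ D : Set X, DiscreteTopology D → #D ≤ ℵ₁) ∧
    ∃ (p : X) (μ : @Measure X (borel X)), μ Set.univ = 1 ∧
      (∀ B : Set X, MeasurableSet[borel X] B → μ B = 0 ∨ μ B = 1) ∧ μ {p} = 0 ∧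
      ∀ L : Set X, IsCompact L → p ∉ L → μ L = 0 := by
  classical
  obtain ⟨e, he⟩ := exists_emb
  have hp : ∀ z : K e, z ≠ mk _ good_empty → (supp z).Nonempty := by
    intro z hz
    by_contra hne
    rw [Set.not_nonempty_iff_eq_empty] at hne
    apply hz
    apply Subtype.ext
    funext a
    have h1 : a ∉ supp z := by rw [hne]; simp
    have h2 : a ∉ supp (mk (e := e) _ good_empty) := by rw [supp_mk]; simp
    simp only [supp, Set.mem_ofPred_eq, Bool.not_eq_true] at h1 h2
    rw [h1, h2]
  have hpoint : Full ({mk (e := e) _ good_empty} : Set (K e))ᶜ := by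
    refine full_nonempty.mono fun z hz hz' => ?_
    rw [Set.mem_singleton_iff] at hz'
    have h1 : (supp z).Nonempty := hz
    rw [hz', supp_mk] at h1
    simp at h1
  refine ⟨K e, inferInstance, inferInstance, inferInstance, propertyH e, not_radon he,
    ⟨Om, fun x => x.1, mk_Om, IsEmbedding.subtypeVal, fun x => countable_supp x⟩,
    mk_discrete_le, mk _ good_empty, mu he, mu_univ he, fun B hB => ?_, ?_, fun L hL hpL => ?_⟩
  · rw [mu_apply he hB]
    by_cases h : Full B
    · right
      rw [if_pos h]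
    · left
      rw [if_neg h]
  · have hop : IsOpen ({mk (e := e) _ good_empty} : Set (K e))ᶜ := isClosed_singleton.isOpen_compl
    have hm : MeasurableSet[borel (K e)] {mk (e := e) _ good_empty} :=
      @MeasurableSet.of_compl (K e) _ (borel (K e)) (MeasurableSpace.measurableSet_generateFrom hop)
    rw [mu_apply he hm, if_neg fun h1 => not_full_compl h1 hpoint]
  · exact mu_compact he hL fun z hz => hp z fun h => hpL (h ▸ hz)

end Pool.Agent.Results.MP_8c874d_gt.NotRadon
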